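import Pool.Agent.helper11.VQ.Spec3a

/-!
# vq:CKZ (MP_07c750_an): concatenation of complex kernels, abstract phase spaces
-/

set_option autoImplicit false

open scoped ENNReal ComplexConjugate
open MeasureTheory Filter Set

namespace Pool.Agent.VQ

noncomputable section

theorem CKZ_fin {Γ : Type} [Group Γ] {Y : Type} [MeasurableSpace Y] [MulAction Γ Y] {m : Measure Y}
    {D : Set Y} {d : Y → Y → ℝ} (hP : PS Γ Y m D d) (x : Y) (R : ℝ) : m {p : Y | d x p ≤ R} < ⊤ := by
  obtain ⟨B, hB⟩ := hP.vol R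
  exact lt_of_le_of_lt (hB x) ENNReal.ofReal_lt_top

theorem CKZ_int {Γ : Type} [Group Γ] {Y : Type} [MeasurableSpace Y] [MulAction Γ Y] {m : Measure Y}
    {D : Set Y} {d : Y → Y → ℝ} (hP : PS Γ Y m D d) (K0 K1 K2 : Y → Y → ℂ) (h0 : KZ Γ d K0)
    (h1 : KZ Γ d K1) (h2 : KZ Γ d K2) (x y : Y) :
    Integrable (Function.uncurry fun q p : Y => K0 x q * K1 q p * K2 p y) (m.prod m) := by
  have : SigmaFinite m := hP.sf
  obtain ⟨B0, hB0⟩ := h0.bdd
  obtain ⟨B1, hB1⟩ := h1.bdd
  obtain ⟨B2, hB2⟩ := h2.bdd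
  obtain ⟨D0, hD0⟩ := h0.range
  obtain ⟨D1, hD1⟩ := h1.range
  set S : Set Y := {p : Y | d x p ≤ D0} with hS
  set T : Set Y := {p : Y | d x p ≤ D0 + D1} with hT
  have hm : Measurable (Function.uncurry fun q p : Y => K0 x q * K1 q p * K2 p y) := by
    have m0 : Measurable fun w : Y × Y => K0 x w.1 :=
      h0.meas.comp (measurable_const.prodMk measurable_fst)
    have m1 : Measurable fun w : Y × Y => K1 w.1 w.2 := h1.meas
    have m2 : Measurable fun w : Y × Y => K2 w.2 y :=
      h2.meas.comp (measurable_snd.prodMk measurable_const)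
    exact (m0.mul m1).mul m2
  have hfin : (m.prod m) (S ×ˢ T) ≠ ⊤ := by
    rw [Measure.prod_prod]
    exact ENNReal.mul_ne_top (CKZ_fin hP x D0).ne (CKZ_fin hP x (D0 + D1)).ne
  have hon : IntegrableOn (Function.uncurry fun q p : Y => K0 x q * K1 q p * K2 p y) (S ×ˢ T)
      (m.prod m) := by
    refine Measure.integrableOn_of_bounded (M := B0 * B1 * B2) hfin hm.aestronglyMeasurable ?_
    refine Eventually.of_forall ?_
    rintro ⟨q, p⟩
    show ‖K0 x q * K1 q p * K2 p y‖ ≤ B0 * B1 * B2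
    rw [norm_mul, norm_mul]
    have n0 : 0 ≤ B0 := (norm_nonneg _).trans (hB0 x q)
    have n1 : 0 ≤ B1 := (norm_nonneg _).trans (hB1 x q)
    exact mul_le_mul (mul_le_mul (hB0 x q) (hB1 q p) (norm_nonneg _) n0) (hB2 p y) (norm_nonneg _)
      (mul_nonneg n0 n1)
  refine hon.integrable_of_forall_notMem_eq_zero ?_
  rintro ⟨q, p⟩ hqp
  show K0 x q * K1 q p * K2 p y = 0
  by_cases c0 : K0 x q = 0
  · rw [c0, zero_mul, zero_mul]
  by_cases c1 : K1 q p = 0
  · rw [c1, mul_zero, zero_mul]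
  exfalso
  apply hqp
  have d0 := hD0 x q c0
  have d1 := hD1 q p c1
  refine ⟨d0, ?_⟩
  show d x p ≤ D0 + D1
  have d2 := hP.dt x q p
  linarith

theorem CKZ_con (hUKZ : UKZ_stmt) {Γ : Type} [Group Γ] {Y : Type} [MeasurableSpace Y] [MulAction Γ Y]
    {m : Measure Y} {D : Set Y} {d : Y → Y → ℝ} (hP : PS Γ Y m D d) (a : ℕ) :
    ∀ s : ℕ → Y → Y → ℂ, (∀ j, KZ Γ d (s j)) →
    ∀ (b : ℕ) (x y : Y), pC m (a + 1 + b) s x y = ∫ p, pC m a s x p * pC m b (fun j => s (a + 1 + j)) p y ∂m := by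
  have : SigmaFinite m := hP.sf
  induction a with
  | zero =>
    intro s _ b x y
    have e1 : (fun j => s (0 + 1 + j)) = fun j => s (j + 1) := by
      funext j
      rw [zero_add, add_comm]
    have e2 : 0 + 1 + b = b + 1 := by omega
    rw [e1, e2]
    rfl
  | succ a ih =>
    intro s hs b x y
    have e2 : a + 1 + 1 + b = (a + 1 + b) + 1 := by omega
    have e1 : (fun j => s (a + 1 + 1 + j)) = fun j => s (a + 1 + j + 1) := by
      funext j
      congr 1
      omega
    rw [e1, e2]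
    have hK1 : KZ Γ d (pC m a (fun j => s (j + 1))) :=
      (hUKZ Γ Y m D d hP _ (fun j => hs (j + 1)) a).1
    have hK2 : KZ Γ d (pC m b (fun j => s (a + 1 + j + 1))) :=
      (hUKZ Γ Y m D d hP _ (fun j => hs (a + 1 + j + 1)) b).1
    have h1 : pC m (a + 1 + b + 1) s x y = ∫ q, s 0 x q * pC m (a + 1 + b) (fun j => s (j + 1)) q y ∂m := rfl
    have h2 : ∀ p, pC m (a + 1) s x p = ∫ q, s 0 x q * pC m a (fun j => s (j + 1)) q p ∂m := fun p => rfl
    rw [h1]
    have h3 : ∀ q, s 0 x q * pC m (a + 1 + b) (fun j => s (j + 1)) q y =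
        ∫ p, s 0 x q * pC m a (fun j => s (j + 1)) q p * pC m b (fun j => s (a + 1 + j + 1)) p y ∂m := by
      intro q
      rw [ih (fun j => s (j + 1)) (fun j => hs (j + 1)) b q y, ← integral_const_mul]
      refine integral_congr_ae (Eventually.of_forall fun p => ?_)
      exact (mul_assoc _ _ _).symm
    rw [integral_congr_ae (Eventually.of_forall h3)]
    rw [integral_integral_swap (CKZ_int hP (s 0) _ _ (hs 0) hK1 hK2 x y)]
    refine integral_congr_ae (Eventually.of_forall fun p => ?_)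
    show ∫ q, s 0 x q * pC m a (fun j => s (j + 1)) q p * pC m b (fun j => s (a + 1 + j + 1)) p y ∂m = _
    rw [integral_mul_const, ← h2]

theorem CKZ_end {Y : Type} [MeasurableSpace Y] {m : Measure Y} (n : ℕ) :
    ∀ (s : ℕ → Y → Y → ℂ) (f g : Y → ℂ) (x y : Y),
    pC m n (fun j x y => (if j = 0 then f x else 1) * s j x y * (if j = n then g y else 1)) x y =
      f x * pC m n s x y * g y := by
  induction n with
  | zero =>
    intro s f g x y
    show (if (0 : ℕ) = 0 then f x else 1) * s 0 x y * (if (0 : ℕ) = 0 then g y else 1) = f x * s 0 x y * g y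
    rw [if_pos rfl, if_pos rfl]
  | succ n ih =>
    intro s f g x y
    have e1 : (fun (j : ℕ) (x y : Y) => (if j + 1 = 0 then f x else 1) * s (j + 1) x y *
        (if j + 1 = n + 1 then g y else 1)) =
        fun (j : ℕ) (x y : Y) => (if j = 0 then (fun _ : Y => (1 : ℂ)) x else 1) *
          (fun j => s (j + 1)) j x y * (if j = n then g y else 1) := by
      funext j x y
      have c1 : (if j + 1 = 0 then f x else 1) = 1 := if_neg (by omega)
      have c2 : (if j = 0 then (1 : ℂ) else 1) = 1 := by split_ifs <;> rfl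
      have c3 : (if j + 1 = n + 1 then g y else 1) = if j = n then g y else 1 := by
        by_cases hj : j = n
        · rw [if_pos hj, if_pos (by omega)]
        · rw [if_neg hj, if_neg (by omega)]
      show _ = (if j = 0 then (1 : ℂ) else 1) * s (j + 1) x y * _
      rw [c1, c2, c3]
    show ∫ p, (if (0 : ℕ) = 0 then f x else 1) * s 0 x p * (if (0 : ℕ) = n + 1 then g p else 1) *
      pC m n (fun (j : ℕ) (x y : Y) => (if j + 1 = 0 then f x else 1) * s (j + 1) x y *
        (if j + 1 = n + 1 then g y else 1)) p y ∂m =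
      f x * (∫ p, s 0 x p * pC m n (fun j => s (j + 1)) p y ∂m) * g y
    rw [e1, ← integral_const_mul, ← integral_mul_const]
    refine integral_congr_ae (Eventually.of_forall fun p => ?_)
    show (if (0 : ℕ) = 0 then f x else 1) * s 0 x p * (if (0 : ℕ) = n + 1 then g p else 1) *
      pC m n (fun (j : ℕ) (x y : Y) => (if j = 0 then (fun _ : Y => (1 : ℂ)) x else 1) *
          (fun j => s (j + 1)) j x y * (if j = n then g y else 1)) p y = _
    rw [ih (fun j => s (j + 1)) (fun _ => 1) g p y, if_pos rfl, if_neg (by omega)]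
    ring

theorem CKZ_proof (hUKZ : UKZ_stmt) : CKZ_stmt := by
  intro Γ _ Y _ _ m D d hP s hs
  exact ⟨fun a b x y => CKZ_con hUKZ hP a s hs b x y, fun n f g x y => CKZ_end n s f g x y⟩

end

end Pool.Agent.VQ
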