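import Pool.Agent.helper74.VQ.SpecB

/-!
# vq:VYA (MP_07c750_an): algebra of the linear system of the Gaussian beam
-/

set_option autoImplicit false

open scoped MatrixGroups ContDiff Topology UpperHalfPlane ComplexConjugate ENNReal
open UpperHalfPlane MeasureTheory Filter Set

namespace Pool.Agent.VQ

open Pool.Agent.RS

noncomputable section

/-- entrywise derivatives -/
def VYA_HD (A : ℝ → Matrix (Fin 2) (Fin 2) ℂ) (A' : Matrix (Fin 2) (Fin 2) ℂ) (t : ℝ) : Prop :=
  ∀ i j, HasDerivAt (fun s => A s i j) (A' i j) t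

theorem VYA_mul {A B : ℝ → Matrix (Fin 2) (Fin 2) ℂ} {A' B' : Matrix (Fin 2) (Fin 2) ℂ} {t : ℝ}
    (hA : VYA_HD A A' t) (hB : VYA_HD B B' t) : VYA_HD (fun s => A s * B s) (A' * B t + A t * B') t := by
  intro i j
  have h : HasDerivAt (fun s => ∑ k, A s i k * B s k j) (∑ k, (A' i k * B t k j + A t i k * B' k j)) t :=
    HasDerivAt.fun_sum fun k _ => (hA i k).mul (hB k j)
  have e : (A' * B t + A t * B') i j = ∑ k, (A' i k * B t k j + A t i k * B' k j) := by
    rw [Matrix.add_apply, Matrix.mul_apply, Matrix.mul_apply, Finset.sum_add_distrib]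
  rw [e]
  exact h

theorem VYA_sub {A B : ℝ → Matrix (Fin 2) (Fin 2) ℂ} {A' B' : Matrix (Fin 2) (Fin 2) ℂ} {t : ℝ}
    (hA : VYA_HD A A' t) (hB : VYA_HD B B' t) : VYA_HD (fun s => A s - B s) (A' - B') t :=
  fun i j => (hA i j).sub (hB i j)

theorem VYA_tr {A : ℝ → Matrix (Fin 2) (Fin 2) ℂ} {A' : Matrix (Fin 2) (Fin 2) ℂ} {t : ℝ}
    (hA : VYA_HD A A' t) : VYA_HD (fun s => (A s).transpose) A'.transpose t :=
  fun i j => hA j i

theorem VYA_ct {A : ℝ → Matrix (Fin 2) (Fin 2) ℂ} {A' : Matrix (Fin 2) (Fin 2) ℂ} {t : ℝ}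
    (hA : VYA_HD A A' t) : VYA_HD (fun s => (A s).conjTranspose) A'.conjTranspose t :=
  fun i j => (hA j i).star

theorem VYA_const {A : ℝ → Matrix (Fin 2) (Fin 2) ℂ} (h : ∀ t, VYA_HD A 0 t) (t : ℝ) : A t = A 0 := by
  ext i j
  exact is_const_of_deriv_eq_zero (f := fun s => A s i j) (fun s => (h s i j).differentiableAt)
    (fun s => (h s i j).deriv) t 0

theorem VYA_J : JJ.transpose = -JJ := by
  ext i j
  fin_cases i <;> fin_cases j <;> simp [JJ]

theorem VYA_Jc : JJ.conjTranspose = -JJ := by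
  ext i j
  fin_cases i <;> fin_cases j <;> simp [JJ]

theorem VYA_K {U : ℍ → ℝ} {E : ℝ} {g : SL(2, ℝ)} (h : hess U g 0 1 = hess U g 1 0) :
    (KK U E g).transpose = KK U E g := by
  ext i j
  fin_cases i <;> fin_cases j <;> simp [KK, h]

theorem VYA_Kc {U : ℍ → ℝ} {E : ℝ} {g : SL(2, ℝ)} (h : hess U g 0 1 = hess U g 1 0) :
    (KK U E g).conjTranspose = KK U E g := by
  ext i j
  fin_cases i <;> fin_cases j <;> simp [KK, h, Complex.conj_ofReal]

theorem VYA_alg {J K Y P : Matrix (Fin 2) (Fin 2) ℂ} {c : ℂ} (hJ : J.transpose = -J) (hK : K.transpose = K) :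
    (P + c • (J * Y)).transpose * P + Y.transpose * (K * Y + c • (J * P)) -
      ((K * Y + c • (J * P)).transpose * Y + P.transpose * (P + c • (J * Y))) = 0 := by
  simp only [Matrix.transpose_add, Matrix.transpose_smul, Matrix.transpose_mul, hJ, hK, mul_add, add_mul,
    Matrix.mul_smul, Matrix.smul_mul, Matrix.mul_neg, Matrix.neg_mul, Matrix.mul_assoc, smul_neg]
  abel

theorem VYA_algc {J K Y P : Matrix (Fin 2) (Fin 2) ℂ} {c : ℂ} (hc : star c = c) (hJ : J.conjTranspose = -J)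
    (hK : K.conjTranspose = K) :
    (P + c • (J * Y)).conjTranspose * P + Y.conjTranspose * (K * Y + c • (J * P)) -
      ((K * Y + c • (J * P)).conjTranspose * Y + P.conjTranspose * (P + c • (J * Y))) = 0 := by
  simp only [Matrix.conjTranspose_add, Matrix.conjTranspose_smul, Matrix.conjTranspose_mul, hJ, hK, hc, mul_add,
    add_mul, Matrix.mul_smul, Matrix.smul_mul, Matrix.mul_neg, Matrix.neg_mul, Matrix.mul_assoc, smul_neg]
  abel

open scoped ComplexOrder in
theorem VYA_det {Y P : Matrix (Fin 2) (Fin 2) ℂ}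
    (h : Y.conjTranspose * P - P.conjTranspose * Y = (2 * Complex.I) • (1 : Matrix (Fin 2) (Fin 2) ℂ)) :
    Y.det ≠ 0 := by
  intro h0
  obtain ⟨x, hx, hYx⟩ := Matrix.exists_mulVec_eq_zero_iff.2 h0
  have h1 : star x ⬝ᵥ ((Y.conjTranspose * P - P.conjTranspose * Y).mulVec x) = 0 := by
    rw [Matrix.sub_mulVec, dotProduct_sub, ← Matrix.mulVec_mulVec, ← Matrix.mulVec_mulVec, hYx,
      Matrix.mulVec_zero, dotProduct_zero, sub_zero, Matrix.dotProduct_mulVec, ← Matrix.star_mulVec, hYx,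
      star_zero, zero_dotProduct]
  rw [h, Matrix.smul_mulVec, Matrix.one_mulVec, dotProduct_smul, smul_eq_mul] at h1
  have h2 : star x ⬝ᵥ x = 0 := by
    rcases mul_eq_zero.1 h1 with h3 | h3
    · exfalso
      have := Complex.I_ne_zero
      simp at h3
    · exact h3
  exact hx (dotProduct_star_self_eq_zero.1 h2)

/-- the linear algebra at one time -/
theorem VYA_lin {Y P : Matrix (Fin 2) (Fin 2) ℂ} (h1 : Y.transpose * P = P.transpose * Y)
    (h2 : Y.conjTranspose * P - P.conjTranspose * Y = (2 * Complex.I) • (1 : Matrix (Fin 2) (Fin 2) ℂ)) :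
    (P * Y⁻¹) 0 1 = (P * Y⁻¹) 1 0 ∧ (∀ i j, ((Y * Y.conjTranspose) i j).im = 0) ∧
    ∀ v : ℂ, (qf (P * Y⁻¹) v).im = ‖(Y⁻¹.mulVec ![(v.re : ℂ), (v.im : ℂ)]) 0‖ ^ 2 +
      ‖(Y⁻¹.mulVec ![(v.re : ℂ), (v.im : ℂ)]) 1‖ ^ 2 := by
  have hd := VYA_det h2
  have hu : IsUnit Y.det := isUnit_iff_ne_zero.2 hd
  set Z := Y⁻¹ with hZ
  have hYZ : Y * Z = 1 := Matrix.mul_nonsing_inv _ hu
  have hZY : Z * Y = 1 := Matrix.nonsing_inv_mul _ hu
  have hZYt : Z.transpose * Y.transpose = 1 := by rw [← Matrix.transpose_mul, hYZ, Matrix.transpose_one]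
  have hZYc : Z.conjTranspose * Y.conjTranspose = 1 := by
    rw [← Matrix.conjTranspose_mul, hYZ, Matrix.conjTranspose_one]
  set M := P * Z with hM
  have hMt : M.transpose = M := by
    have e1 : Z.transpose * (Y.transpose * P) * Z = Z.transpose * (P.transpose * Y) * Z := by rw [h1]
    have e2 : Z.transpose * (Y.transpose * P) * Z = M := by
      rw [← Matrix.mul_assoc, hZYt, Matrix.one_mul]
    have e3 : Z.transpose * (P.transpose * Y) * Z = M.transpose := by
      rw [← Matrix.mul_assoc, Matrix.mul_assoc _ Y Z, hYZ, Matrix.mul_one, hM, Matrix.transpose_mul]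
    rw [← e3, ← e1, e2]
  have hMM : M - M.conjTranspose = (2 * Complex.I) • (Z.conjTranspose * Z) := by
    have e1 : Z.conjTranspose * (Y.conjTranspose * P - P.conjTranspose * Y) * Z =
        Z.conjTranspose * ((2 * Complex.I) • (1 : Matrix (Fin 2) (Fin 2) ℂ)) * Z := by rw [h2]
    have e2 : Z.conjTranspose * (Y.conjTranspose * P - P.conjTranspose * Y) * Z = M - M.conjTranspose := by
      rw [mul_sub, sub_mul, ← Matrix.mul_assoc, hZYc, Matrix.one_mul, ← Matrix.mul_assoc,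
        Matrix.mul_assoc _ Y Z, hYZ, Matrix.mul_one, hM, Matrix.conjTranspose_mul]
    rw [← e2, e1, Matrix.mul_smul, Matrix.mul_one, Matrix.smul_mul]
  have h2I : (2 * Complex.I) ≠ 0 := mul_ne_zero two_ne_zero Complex.I_ne_zero
  refine ⟨?_, ?_, ?_⟩
  · have := congrFun (congrFun hMt 1) 0
    exact this
  · -- `Y Y*` is real
    have hN : (Z.conjTranspose * Z).transpose = Z.conjTranspose * Z := by
      have e : Z.conjTranspose * Z = (2 * Complex.I)⁻¹ • (M - M.conjTranspose) := by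
        rw [hMM, smul_smul, inv_mul_cancel₀ h2I, one_smul]
      rw [e, Matrix.transpose_smul, Matrix.transpose_sub, hMt]
      have e4 : M.conjTranspose.transpose = M.conjTranspose := by
        have : M.conjTranspose.transpose = M.transpose.conjTranspose := by
          ext i j; rfl
        rw [this, hMt]
      rw [e4]
    have hinv : (Y * Y.conjTranspose) * (Z.conjTranspose * Z) = 1 := by
      have e5 : Y.conjTranspose * Z.conjTranspose = 1 := by
        rw [← Matrix.conjTranspose_mul, hZY, Matrix.conjTranspose_one]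
      rw [Matrix.mul_assoc, ← Matrix.mul_assoc Y.conjTranspose, e5, Matrix.one_mul, hYZ]
    have hinv' : (Z.conjTranspose * Z) * (Y * Y.conjTranspose) = 1 := by
      rw [Matrix.mul_assoc, ← Matrix.mul_assoc Z, hZY, Matrix.one_mul, hZYc]
    have hR : (Y * Y.conjTranspose).transpose = Y * Y.conjTranspose := by
      have e6 : (Y * Y.conjTranspose).transpose * (Z.conjTranspose * Z) = 1 := by
        conv_lhs => rw [← hN]
        rw [← Matrix.transpose_mul, hinv', Matrix.transpose_one]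
      calc (Y * Y.conjTranspose).transpose = (Y * Y.conjTranspose).transpose *
            ((Z.conjTranspose * Z) * (Y * Y.conjTranspose)) := by rw [hinv', Matrix.mul_one]
        _ = Y * Y.conjTranspose := by rw [← Matrix.mul_assoc, e6, Matrix.one_mul]
    have hRc : (Y * Y.conjTranspose).conjTranspose = Y * Y.conjTranspose := by
      rw [Matrix.conjTranspose_mul, Matrix.conjTranspose_conjTranspose]
    intro i j
    have e7 : star ((Y * Y.conjTranspose) j i) = (Y * Y.conjTranspose) i j := congrFun (congrFun hRc i) j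
    have e8 : (Y * Y.conjTranspose) j i = (Y * Y.conjTranspose) i j := congrFun (congrFun hR i) j
    rw [e8] at e7
    exact Complex.conj_eq_iff_im.1 e7
  · intro v
    have hq : ∀ A : Matrix (Fin 2) (Fin 2) ℂ, (starRingEnd ℂ) (qf A v) = qf A.conjTranspose v := by
      intro A
      unfold qf
      simp only [map_add, map_mul, Complex.conj_ofReal, Matrix.conjTranspose_apply]
      show (starRingEnd ℂ) (A 0 0) * _ + ((starRingEnd ℂ) (A 0 1) + (starRingEnd ℂ) (A 1 0)) * _ +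
        (starRingEnd ℂ) (A 1 1) * _ = (starRingEnd ℂ) (A 0 0) * _ +
        ((starRingEnd ℂ) (A 1 0) + (starRingEnd ℂ) (A 0 1)) * _ + (starRingEnd ℂ) (A 1 1) * _
      ring
    have hsub : qf M v - qf M.conjTranspose v = qf (M - M.conjTranspose) v := by
      unfold qf
      simp only [Matrix.sub_apply]
      ring
    have hN : qf (Z.conjTranspose * Z) v = ((‖(Z.mulVec ![(v.re : ℂ), (v.im : ℂ)]) 0‖ ^ 2 +
        ‖(Z.mulVec ![(v.re : ℂ), (v.im : ℂ)]) 1‖ ^ 2 : ℝ) : ℂ) := by
      have e0 : ∀ i, (Z.mulVec ![(v.re : ℂ), (v.im : ℂ)]) i = Z i 0 * v.re + Z i 1 * v.im := by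
        intro i
        simp [Matrix.mulVec, dotProduct, Fin.sum_univ_two]
      rw [e0, e0]
      push_cast
      rw [← Complex.conj_mul', ← Complex.conj_mul']
      unfold qf
      simp only [Matrix.mul_apply, Fin.sum_univ_two, Matrix.conjTranspose_apply, map_add, map_mul,
        Complex.conj_ofReal]
      push_cast
      show ((starRingEnd ℂ) (Z 0 0) * Z 0 0 + (starRingEnd ℂ) (Z 1 0) * Z 1 0) * _ +
        ((starRingEnd ℂ) (Z 0 0) * Z 0 1 + (starRingEnd ℂ) (Z 1 0) * Z 1 1 +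
          ((starRingEnd ℂ) (Z 0 1) * Z 0 0 + (starRingEnd ℂ) (Z 1 1) * Z 1 0)) * _ +
        ((starRingEnd ℂ) (Z 0 1) * Z 0 1 + (starRingEnd ℂ) (Z 1 1) * Z 1 1) * _ = _
      ring
    have hfin : qf M v - (starRingEnd ℂ) (qf M v) = (2 * Complex.I) *
        ((‖(Z.mulVec ![(v.re : ℂ), (v.im : ℂ)]) 0‖ ^ 2 + ‖(Z.mulVec ![(v.re : ℂ), (v.im : ℂ)]) 1‖ ^ 2 : ℝ) : ℂ) := by
      rw [hq, hsub, hMM, ← hN]
      unfold qf
      simp only [Matrix.smul_apply, smul_eq_mul]
      ring
    rw [Complex.sub_conj] at hfin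
    set q := (qf M v).im
    set r := ‖(Z.mulVec ![(v.re : ℂ), (v.im : ℂ)]) 0‖ ^ 2 + ‖(Z.mulVec ![(v.re : ℂ), (v.im : ℂ)]) 1‖ ^ 2
    have h3 : (((2 * q : ℝ) : ℂ)) = (((2 * r : ℝ) : ℂ)) := by
      apply mul_right_cancel₀ Complex.I_ne_zero
      rw [hfin]
      push_cast
      ring
    have h4 := Complex.ofReal_injective h3
    linarith

theorem VYA_proof (hVUB : VUB_stmt) : VYA_stmt := by
  intro Γ δ B D hD hδ E t g hE
  have hsym : ∀ g, hess D.U g 0 1 = hess D.U g 1 0 := fun g =>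
    ((hVUB Γ δ B D.U hD.pot hδ).2.1 g).2.2.2.2
  have hY : ∀ t, VYA_HD (fun s => D.Y E s g)
      (D.P E t g + ((kap D.U E (D.fl E t g) : ℝ) : ℂ) • (JJ * D.Y E t g)) t := fun t => hD.dY E t g hE
  have hP : ∀ t, VYA_HD (fun s => D.P E s g)
      (KK D.U E (D.fl E t g) * D.Y E t g + ((kap D.U E (D.fl E t g) : ℝ) : ℂ) • (JJ * D.P E t g)) t :=
    fun t => hD.dP E t g hE
  have h1 : ∀ t, (D.Y E t g).transpose * D.P E t g = (D.P E t g).transpose * D.Y E t g := by
    intro t
    have hc := VYA_const (A := fun s => (D.Y E s g).transpose * D.P E s g - (D.P E s g).transpose * D.Y E s g)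
      (fun s => by
        have h := VYA_sub (VYA_mul (VYA_tr (hY s)) (hP s)) (VYA_mul (VYA_tr (hP s)) (hY s))
        rwa [VYA_alg VYA_J (VYA_K (hsym _))] at h) t
    simp only [hD.Y0, hD.P0, Matrix.transpose_one, Matrix.transpose_smul, Matrix.one_mul, Matrix.mul_one,
      sub_self] at hc
    exact sub_eq_zero.1 hc
  have h2 : ∀ t, (D.Y E t g).conjTranspose * D.P E t g - (D.P E t g).conjTranspose * D.Y E t g =
      (2 * Complex.I) • (1 : Matrix (Fin 2) (Fin 2) ℂ) := by
    intro t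
    have hc := VYA_const (A := fun s => (D.Y E s g).conjTranspose * D.P E s g -
        (D.P E s g).conjTranspose * D.Y E s g)
      (fun s => by
        have h := VYA_sub (VYA_mul (VYA_ct (hY s)) (hP s)) (VYA_mul (VYA_ct (hP s)) (hY s))
        rwa [VYA_algc (Complex.conj_ofReal _) VYA_Jc (VYA_Kc (hsym _))] at h) t
    simp only [hD.Y0, hD.P0, Matrix.conjTranspose_one, Matrix.conjTranspose_smul, Matrix.one_mul,
      Matrix.mul_one] at hc
    rw [hc, ← sub_smul]
    congr 1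
    show Complex.I - (starRingEnd ℂ) Complex.I = _
    rw [Complex.conj_I]
    ring
  have hdet : ∀ t, (D.Y E t g).det ≠ 0 := fun t => VYA_det (h2 t)
  obtain ⟨h4, h5, h6⟩ := VYA_lin (h1 t) (h2 t)
  refine ⟨hdet t, h1 t, h2 t, h4, ?_, h5, h6⟩
  -- the amplitude
  have hda : ∀ t, HasDerivAt (fun s => D.a E s g ^ 2 * (D.Y E s g).det) 0 t := by
    intro t
    have e1 : (fun s => D.a E s g ^ 2 * (D.Y E s g).det) = fun s => D.a E s g ^ 2 *
        (D.Y E s g 0 0 * D.Y E s g 1 1 - D.Y E s g 0 1 * D.Y E s g 1 0) := by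
      funext s
      rw [Matrix.det_fin_two]
    rw [e1]
    have hP' : D.P E t g = D.M E t g * D.Y E t g := by
      unfold Dyn.M
      rw [Matrix.mul_assoc, Matrix.nonsing_inv_mul _ (isUnit_iff_ne_zero.2 (hdet t)), Matrix.mul_one]
    have hYd := hY t
    set κ : ℂ := ((kap D.U E (D.fl E t g) : ℝ) : ℂ)
    set Y' : Matrix (Fin 2) (Fin 2) ℂ := D.P E t g + κ • (JJ * D.Y E t g) with hY'
    have hda := hD.da E t g hE
    have d1 : HasDerivAt (fun s => D.Y E s g 0 0 * D.Y E s g 1 1)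
        (Y' 0 0 * D.Y E t g 1 1 + D.Y E t g 0 0 * Y' 1 1) t := (hYd 0 0).mul (hYd 1 1)
    have d2 : HasDerivAt (fun s => D.Y E s g 0 1 * D.Y E s g 1 0)
        (Y' 0 1 * D.Y E t g 1 0 + D.Y E t g 0 1 * Y' 1 0) t := (hYd 0 1).mul (hYd 1 0)
    have d3 : HasDerivAt (fun s => D.Y E s g 0 0 * D.Y E s g 1 1 - D.Y E s g 0 1 * D.Y E s g 1 0)
        ((Y' 0 0 * D.Y E t g 1 1 + D.Y E t g 0 0 * Y' 1 1) -
          (Y' 0 1 * D.Y E t g 1 0 + D.Y E t g 0 1 * Y' 1 0)) t := d1.sub d2
    have d4 : HasDerivAt (fun s => D.a E s g ^ 2)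
        (2 * D.a E t g ^ (2 - 1) * (-(1 / 2) * Matrix.trace (D.M E t g) * D.a E t g)) t := by
      have := hda.pow 2
      exact_mod_cast this
    have hd : HasDerivAt (fun s => D.a E s g ^ 2 *
        (D.Y E s g 0 0 * D.Y E s g 1 1 - D.Y E s g 0 1 * D.Y E s g 1 0))
        ((2 * D.a E t g ^ (2 - 1) * (-(1 / 2) * Matrix.trace (D.M E t g) * D.a E t g)) *
          (D.Y E t g 0 0 * D.Y E t g 1 1 - D.Y E t g 0 1 * D.Y E t g 1 0) + D.a E t g ^ 2 *
          ((Y' 0 0 * D.Y E t g 1 1 + D.Y E t g 0 0 * Y' 1 1) -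
          (Y' 0 1 * D.Y E t g 1 0 + D.Y E t g 0 1 * Y' 1 0))) t := d4.mul d3
    refine hd.congr_deriv ?_
    rw [hY', hP']
    set M := D.M E t g
    set Y := D.Y E t g
    simp only [Matrix.add_apply, Matrix.smul_apply, Matrix.mul_apply, Fin.sum_univ_two, smul_eq_mul,
      Matrix.trace_fin_two, JJ, Matrix.of_apply, Matrix.cons_val_zero, Matrix.cons_val_one,
      Matrix.cons_val', Matrix.empty_val', Matrix.cons_val_fin_one]
    ring
  have hc := is_const_of_deriv_eq_zero (f := fun s => D.a E s g ^ 2 * (D.Y E s g).det)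
    (fun s => (hda s).differentiableAt) (fun s => (hda s).deriv) t 0
  simp only [hD.a0, hD.Y0, Matrix.det_one, one_pow, mul_one] at hc
  exact hc

end

end Pool.Agent.VQ
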