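import Pool.Agent.helper74.VQ.SpecE
import Pool.Agent.helper89.VQ.VCM
import Pool.Agent.helper40.VQ.VCD

/-!
# vq:VLE (MP_07c750_an): beams are localised in energy
-/

set_option autoImplicit false

open scoped MatrixGroups ContDiff Topology UpperHalfPlane ComplexConjugate ENNReal
open UpperHalfPlane MeasureTheory Filter Set

namespace Pool.Agent.VQ

open Pool.Agent.RS

noncomputable section

/-- the plane wave -/
def VLE_e (c : ℝ) (v : ℂ) : ℂ := Complex.exp (((c * v.re : ℝ) : ℂ) * Complex.I)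

theorem VLE_en (c : ℝ) (v : ℂ) : ‖VLE_e c v‖ = 1 := by
  unfold VLE_e
  exact Complex.norm_exp_ofReal_mul_I _

theorem VLE_ed (c : ℝ) (v : ℂ) : HasFDerivAt (VLE_e c)
    ((VLE_e c v) • (((c : ℂ) * Complex.I) • (Complex.ofRealCLM.comp Complex.reCLM))) v := by
  have h1 : HasFDerivAt (fun v : ℂ => ((c * v.re : ℝ) : ℂ) * Complex.I)
      (((c : ℂ) * Complex.I) • (Complex.ofRealCLM.comp Complex.reCLM)) v := by
    have h2 : HasFDerivAt (fun v : ℂ => ((c : ℂ) * Complex.I) • (Complex.ofRealCLM.comp Complex.reCLM) v)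
        (((c : ℂ) * Complex.I) • (Complex.ofRealCLM.comp Complex.reCLM)) v :=
      (((c : ℂ) * Complex.I) • (Complex.ofRealCLM.comp Complex.reCLM)).hasFDerivAt
    refine h2.congr_of_eventuallyEq (Eventually.of_forall fun w => ?_)
    show ((c * w.re : ℝ) : ℂ) * Complex.I = ((c : ℂ) * Complex.I) * ((w.re : ℝ) : ℂ)
    push_cast
    ring
  exact h1.cexp

theorem VLE_ec (c : ℝ) : ContDiff ℝ ∞ (VLE_e c) := by
  have h1 : ContDiff ℝ ∞ (fun v : ℂ => ((c : ℂ) * Complex.I) * (Complex.ofRealCLM (Complex.reCLM v))) :=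
    contDiff_const.mul (Complex.ofRealCLM.contDiff.comp Complex.reCLM.contDiff)
  have h2 : VLE_e c = fun v : ℂ => Complex.exp (((c : ℂ) * Complex.I) * (Complex.ofRealCLM (Complex.reCLM v))) := by
    funext v
    unfold VLE_e
    rw [Complex.ofRealCLM_apply, Complex.reCLM_apply]
    push_cast
    ring_nf
  rw [h2]
  exact h1.cexp

theorem VLE_d1 {c : ℝ} {A : ℂ → ℂ} {v : ℂ} (hA : DifferentiableAt ℝ A v) (d : ℂ) :
    fderiv ℝ (fun v => VLE_e c v * A v) v d =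
      VLE_e c v * (((c * d.re : ℝ) : ℂ) * Complex.I * A v + fderiv ℝ A v d) := by
  have h : HasFDerivAt (fun v => VLE_e c v * A v) (VLE_e c v • fderiv ℝ A v +
      A v • VLE_e c v • (((c : ℂ) * Complex.I) • (Complex.ofRealCLM.comp Complex.reCLM))) v := (VLE_ed c v).mul hA.hasFDerivAt
  rw [h.fderiv]
  simp only [add_apply, smul_apply, ContinuousLinearMap.comp_apply,
    Complex.ofRealCLM_apply, Complex.reCLM_apply, smul_eq_mul]
  push_cast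
  ring

theorem VLE_d2 {c : ℝ} {A : ℂ → ℂ} (hA : ContDiff ℝ ∞ A) (v d : ℂ) :
    fderiv ℝ (fderiv ℝ (fun v => VLE_e c v * A v)) v d d =
      VLE_e c v * (-(((c * d.re) ^ 2 : ℝ) : ℂ) * A v + 2 * (((c * d.re : ℝ) : ℂ) * Complex.I) * fderiv ℝ A v d +
        fderiv ℝ (fderiv ℝ A) v d d) := by
  have hf : ContDiff ℝ ∞ (fun v => VLE_e c v * A v) := (VLE_ec c).mul hA
  have hf1 : ContDiff ℝ ∞ (fderiv ℝ (fun v => VLE_e c v * A v)) := hf.fderiv_right (by simp)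
  have hA1 : ContDiff ℝ ∞ (fderiv ℝ A) := hA.fderiv_right (by simp)
  have hd1 : DifferentiableAt ℝ (fderiv ℝ (fun v => VLE_e c v * A v)) v := hf1.differentiable (by simp) v
  have hdA1 : DifferentiableAt ℝ (fderiv ℝ A) v := hA1.differentiable (by simp) v
  have hdA : Differentiable ℝ A := hA.differentiable (by simp)
  have h1 : fderiv ℝ (fun w => fderiv ℝ (fun v => VLE_e c v * A v) w d) v d =
      fderiv ℝ (fderiv ℝ (fun v => VLE_e c v * A v)) v d d := by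
    have h := hd1.hasFDerivAt.clm_apply (hasFDerivAt_const d v)
    rw [h.fderiv]
    simp
  have h2 : (fun w => fderiv ℝ (fun v => VLE_e c v * A v) w d) =
      fun w => VLE_e c w * (((c * d.re : ℝ) : ℂ) * Complex.I * A w + fderiv ℝ A w d) := by
    funext w
    exact VLE_d1 (hdA w) d
  have hdB : DifferentiableAt ℝ (fun w => fderiv ℝ A w d) v := hdA1.clm_apply (differentiableAt_const d)
  have h3 : fderiv ℝ (fun w => ((c * d.re : ℝ) : ℂ) * Complex.I * A w + fderiv ℝ A w d) v d =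
      ((c * d.re : ℝ) : ℂ) * Complex.I * fderiv ℝ A v d + fderiv ℝ (fderiv ℝ A) v d d := by
    have h4 : HasFDerivAt (fun w => ((c * d.re : ℝ) : ℂ) * Complex.I * A w + fderiv ℝ A w d)
      ((((c * d.re : ℝ) : ℂ) * Complex.I) • fderiv ℝ A v + ((fderiv ℝ A v).comp (0 : ℂ →L[ℝ] ℂ) + (fderiv ℝ (fderiv ℝ A) v).flip d)) v :=
      ((hdA v).hasFDerivAt.const_mul (((c * d.re : ℝ) : ℂ) * Complex.I)).add
      (hdA1.hasFDerivAt.clm_apply (hasFDerivAt_const d v))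
    rw [h4.fderiv]
    simp
  have hdC : DifferentiableAt ℝ (fun w => ((c * d.re : ℝ) : ℂ) * Complex.I * A w + fderiv ℝ A w d) v :=
    ((hdA v).const_mul _).add hdB
  rw [← h1, h2, VLE_d1 hdC d, h3]
  have hI : Complex.I * Complex.I = -1 := Complex.I_mul_I
  push_cast
  linear_combination (VLE_e c v * ((c : ℂ) * (d.re : ℂ)) ^ 2 * A v) * hI

theorem VLE_lp {c : ℝ} {A : ℂ → ℂ} (hA : ContDiff ℝ ∞ A) (v : ℂ) :
    fderiv ℝ (fderiv ℝ (fun v => VLE_e c v * A v)) v 1 1 +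
      fderiv ℝ (fderiv ℝ (fun v => VLE_e c v * A v)) v Complex.I Complex.I =
      VLE_e c v * (-((c ^ 2 : ℝ) : ℂ) * A v + 2 * ((c : ℂ) * Complex.I) * fderiv ℝ A v 1 +
        (fderiv ℝ (fderiv ℝ A) v 1 1 + fderiv ℝ (fderiv ℝ A) v Complex.I Complex.I)) := by
  rw [VLE_d2 hA, VLE_d2 hA]
  simp only [Complex.one_re, Complex.I_re, mul_one, mul_zero, Complex.ofReal_zero, zero_mul]
  push_cast
  ring

theorem VLE_n2 {A : ℂ → ℂ} {v : ℂ} {M : ℝ} (h : ‖iteratedFDeriv ℝ 2 A v‖ ≤ M) (d : ℂ) (hd : ‖d‖ = 1) :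
    ‖fderiv ℝ (fderiv ℝ A) v d d‖ ≤ M := by
  have h1 : ‖fderiv ℝ (fderiv ℝ A) v‖ = ‖iteratedFDeriv ℝ 2 A v‖ := by
    rw [← norm_iteratedFDeriv_one, norm_iteratedFDeriv_fderiv]
  have h2 := (fderiv ℝ (fderiv ℝ A) v).le_opNorm₂ d d
  rw [hd, mul_one, mul_one, h1] at h2
  exact h2.trans h

theorem VLE_n1 {A : ℂ → ℂ} {v : ℂ} {M : ℝ} (h : ‖iteratedFDeriv ℝ 1 A v‖ ≤ M) : ‖fderiv ℝ A v 1‖ ≤ M := by
  have h2 := (fderiv ℝ A v).le_opNorm 1
  rw [norm_one, mul_one] at h2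
  rw [norm_iteratedFDeriv_one] at h
  exact h2.trans h

/-- the bracket is small -/
theorem VLE_br {ρ u u0 E δ x : ℝ} (hρ : ρ ^ 2 = u0 + 2 * E) (hρ1 : 4 / 5 ≤ ρ) (hρ2 : ρ ≤ 6 / 5) (hx0 : 0 ≤ x) (hx : x ≤ 1)
    (hδ : δ ≤ 1 / 10) (hu : |u - u0| ≤ δ * x) : |(1 - x ^ 2 / 4) ^ 2 * ρ ^ 2 - (u + 2 * E)| ≤ x := by
  have h1 : δ * x ≤ x / 10 := by nlinarith
  have h2 := abs_le.1 (hu.trans h1)
  have h3 : ρ ^ 2 ≤ 36 / 25 := by nlinarith
  have h3' : 0 ≤ ρ ^ 2 := sq_nonneg _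
  have h4 : x ^ 2 ≤ x := by nlinarith
  have h5 : 0 ≤ x ^ 2 := sq_nonneg _
  have h6 : (1 - x ^ 2 / 4) ^ 2 * ρ ^ 2 - (u + 2 * E) = -((x ^ 2 / 2 - x ^ 4 / 16) * ρ ^ 2) - (u - u0) := by
    rw [hρ]; ring
  have h7 : 0 ≤ x ^ 2 / 2 - x ^ 4 / 16 := by nlinarith
  have h8 : x ^ 2 / 2 - x ^ 4 / 16 ≤ x / 2 := by nlinarith [pow_nonneg hx0 4]
  have h9 : 0 ≤ (x ^ 2 / 2 - x ^ 4 / 16) * ρ ^ 2 := mul_nonneg h7 h3'
  have h10 : (x ^ 2 / 2 - x ^ 4 / 16) * ρ ^ 2 ≤ x / 2 * (36 / 25) :=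
    mul_le_mul h8 h3 h3' (by linarith)
  rw [h6, abs_le]
  constructor
  · linarith
  · linarith

/-- pointwise bound of the defect -/
theorem VLE_pt {c R m N q U E : ℝ} {A : ℂ → ℂ} {v : ℂ} {x : ℝ} (hq0 : 0 ≤ q) (hq1 : q ≤ 1) (hc : 0 ≤ c)
    (h0 : ‖A v‖ ≤ m) (h1 : ‖fderiv ℝ A v 1‖ ≤ m * N)
    (h2 : ‖fderiv ℝ (fderiv ℝ A) v 1 1‖ ≤ m * N ^ 2) (h2' : ‖fderiv ℝ (fderiv ℝ A) v Complex.I Complex.I‖ ≤ m * N ^ 2)
    (hb : |q * c ^ 2 - R ^ 2 * (U + 2 * E)| ≤ R ^ 2 * x) :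
    ‖-((q : ℝ) : ℂ) * (VLE_e c v * (-((c ^ 2 : ℝ) : ℂ) * A v + 2 * ((c : ℂ) * Complex.I) * fderiv ℝ A v 1 +
        (fderiv ℝ (fderiv ℝ A) v 1 1 + fderiv ℝ (fderiv ℝ A) v Complex.I Complex.I))) -
      ((R ^ 2 * (U + 2 * E) : ℝ) : ℂ) * (VLE_e c v * A v)‖ ≤ R ^ 2 * x * m + 2 * c * (m * N) + 2 * (m * N ^ 2) := by
  have he : -((q : ℝ) : ℂ) * (VLE_e c v * (-((c ^ 2 : ℝ) : ℂ) * A v + 2 * ((c : ℂ) * Complex.I) * fderiv ℝ A v 1 +
        (fderiv ℝ (fderiv ℝ A) v 1 1 + fderiv ℝ (fderiv ℝ A) v Complex.I Complex.I))) -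
      ((R ^ 2 * (U + 2 * E) : ℝ) : ℂ) * (VLE_e c v * A v) =
      VLE_e c v * ((((q * c ^ 2 - R ^ 2 * (U + 2 * E) : ℝ) : ℂ) * A v) - ((q : ℝ) : ℂ) * (2 * ((c : ℂ) * Complex.I) * fderiv ℝ A v 1 +
        (fderiv ℝ (fderiv ℝ A) v 1 1 + fderiv ℝ (fderiv ℝ A) v Complex.I Complex.I))) := by
    push_cast
    ring
  rw [he, norm_mul, VLE_en, one_mul]
  have hm : 0 ≤ m := (norm_nonneg _).trans h0
  have e1 : ‖((q * c ^ 2 - R ^ 2 * (U + 2 * E) : ℝ) : ℂ) * A v‖ ≤ R ^ 2 * x * m := by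
    rw [norm_mul, Complex.norm_real, Real.norm_eq_abs]
    exact mul_le_mul hb h0 (norm_nonneg _) ((abs_nonneg _).trans hb)
  have e2 : ‖2 * ((c : ℂ) * Complex.I) * fderiv ℝ A v 1‖ ≤ 2 * c * (m * N) := by
    rw [norm_mul, norm_mul, norm_mul, Complex.norm_real, Complex.norm_I, Real.norm_eq_abs, abs_of_nonneg hc, mul_one]
    rw [show ‖(2 : ℂ)‖ = 2 by simp]
    exact mul_le_mul_of_nonneg_left h1 (by positivity)
  have e3 : ‖fderiv ℝ (fderiv ℝ A) v 1 1 + fderiv ℝ (fderiv ℝ A) v Complex.I Complex.I‖ ≤ 2 * (m * N ^ 2) := by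
    refine (norm_add_le _ _).trans ?_
    linarith
  have e4 : ‖((q : ℝ) : ℂ) * (2 * ((c : ℂ) * Complex.I) * fderiv ℝ A v 1 +
        (fderiv ℝ (fderiv ℝ A) v 1 1 + fderiv ℝ (fderiv ℝ A) v Complex.I Complex.I))‖ ≤ 2 * c * (m * N) + 2 * (m * N ^ 2) := by
    rw [norm_mul, Complex.norm_real, Real.norm_eq_abs, abs_of_nonneg hq0]
    have e5 : ‖2 * ((c : ℂ) * Complex.I) * fderiv ℝ A v 1 +
        (fderiv ℝ (fderiv ℝ A) v 1 1 + fderiv ℝ (fderiv ℝ A) v Complex.I Complex.I)‖ ≤ 2 * c * (m * N) + 2 * (m * N ^ 2) :=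
      (norm_add_le _ _).trans (add_le_add e2 e3)
    calc q * _ ≤ 1 * ‖2 * ((c : ℂ) * Complex.I) * fderiv ℝ A v 1 +
        (fderiv ℝ (fderiv ℝ A) v 1 1 + fderiv ℝ (fderiv ℝ A) v Complex.I Complex.I)‖ :=
          mul_le_mul_of_nonneg_right hq1 (norm_nonneg _)
      _ ≤ _ := by rw [one_mul]; exact e5
  refine (norm_sub_le _ _).trans ?_
  linarith

theorem VLE_zero {A : ℂ → ℂ} {s : ℝ} (hs : ∀ v, A v ≠ 0 → ‖v‖ ≤ s) {v : ℂ} (hv : s < ‖v‖) :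
    A v = 0 ∧ fderiv ℝ A v = 0 ∧ fderiv ℝ (fderiv ℝ A) v = 0 := by
  have h1 : ∀ w : ℂ, s < ‖w‖ → A =ᶠ[𝓝 w] fun _ => 0 := by
    intro w hw
    have ho : IsOpen {w : ℂ | s < ‖w‖} := isOpen_lt continuous_const continuous_norm
    filter_upwards [ho.mem_nhds hw] with y hy
    by_contra hc
    exact absurd (hs y hc) (not_le.2 hy)
  have h2 : ∀ w : ℂ, s < ‖w‖ → fderiv ℝ A w = 0 := by
    intro w hw
    rw [(h1 w hw).fderiv_eq]
    simp
  refine ⟨(h1 v hv).eq_of_nhds, h2 v hv, ?_⟩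
  have h3 : fderiv ℝ A =ᶠ[𝓝 v] fun _ => 0 := by
    have ho : IsOpen {w : ℂ | s < ‖w‖} := isOpen_lt continuous_const continuous_norm
    filter_upwards [ho.mem_nhds hv] with y hy
    exact h2 y hy
  rw [h3.fderiv_eq]
  simp

/-- the integral of a bounded function with small support in the disc coordinate -/
theorem VLE_int (g : SL(2, ℝ)) (G : ℍ → ℂ) (s M : ℝ) (hs0 : 0 ≤ s) (hs : s ≤ 1) (hM : ∀ z, ‖G z‖ ≤ M)
    (h0 : ∀ z, s < ‖cd (g⁻¹ • z)‖ → G z = 0) : nn univ G ≤ 8 * (M * s) ^ 2 := by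
  have hcd := VCD_proof
  have hM0 : 0 ≤ M := (norm_nonneg _).trans (hM I)
  unfold nn
  rw [Measure.restrict_univ, (VCM_proof VCD_proof).1 ℝ g (fun z => ‖G z‖ ^ 2)]
  have hv : (volume (Metric.closedBall (0 : ℂ) s)).toReal = Real.pi * s ^ 2 := by
    rw [Complex.volume_closedBall, ENNReal.toReal_mul, ENNReal.toReal_pow, ENNReal.toReal_ofReal hs0]
    simp [mul_comm]
  have hb : ∀ v ∈ Metric.ball (0 : ℂ) 2, jd v • ‖G (g • cdi v)‖ ^ 2 ≤
      (Metric.closedBall (0 : ℂ) s).indicator (fun _ => 2 * M ^ 2) v := by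
    intro v hv
    have hv2 : ‖v‖ < 2 := by simpa using hv
    have hz : cd (g⁻¹ • (g • cdi v)) = v := by
      rw [inv_smul_smul]
      exact (hcd.2.1 v hv2).1
    by_cases hvs : ‖v‖ ≤ s
    · have hmem : v ∈ Metric.closedBall (0 : ℂ) s := by simpa using hvs
      rw [indicator_of_mem hmem, smul_eq_mul]
      have h1 : jd v ≤ 2 := by
        unfold jd
        have hv1 : ‖v‖ ≤ 1 := hvs.trans hs
        have hv0 := norm_nonneg v
        have h2 : ‖v‖ ^ 2 ≤ 1 := by nlinarith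
        have h3 : 1 / 2 ≤ (1 - ‖v‖ ^ 2 / 4) ^ 2 := by nlinarith
        rw [inv_le_comm₀ (by linarith) (by norm_num)]
        linarith
      have h2 : ‖G (g • cdi v)‖ ^ 2 ≤ M ^ 2 := pow_le_pow_left₀ (norm_nonneg _) (hM _) 2
      exact mul_le_mul h1 h2 (by positivity) (by norm_num)
    · have hz2 : G (g • cdi v) = 0 := h0 _ (by rw [hz]; exact not_le.1 hvs)
      rw [hz2]
      simp only [norm_zero, ne_eq, OfNat.ofNat_ne_zero, not_false_eq_true, zero_pow, smul_zero]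
      exact indicator_nonneg (fun _ _ => by positivity) v
  have hint : Integrable ((Metric.closedBall (0 : ℂ) s).indicator (fun _ => 2 * M ^ 2)) (volume : Measure ℂ) := by
    rw [integrable_indicator_iff measurableSet_closedBall]
    exact integrableOn_const (hs := (measure_closedBall_lt_top).ne)
  calc ∫ v in Metric.ball (0 : ℂ) 2, jd v • ‖G (g • cdi v)‖ ^ 2
      ≤ ∫ v in Metric.ball (0 : ℂ) 2, (Metric.closedBall (0 : ℂ) s).indicator (fun _ => 2 * M ^ 2) v := by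
        refine integral_mono_of_nonneg ?_ hint.integrableOn ?_
        · refine Eventually.of_forall fun v => ?_
          have : 0 ≤ jd v := by unfold jd; positivity
          exact smul_nonneg this (by positivity)
        · exact (ae_restrict_iff' Metric.isOpen_ball.measurableSet).2 (Eventually.of_forall hb)
    _ ≤ ∫ v, (Metric.closedBall (0 : ℂ) s).indicator (fun _ => 2 * M ^ 2) v :=
        setIntegral_le_integral hint (Eventually.of_forall fun v => indicator_nonneg (fun _ _ => by positivity) v)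
    _ = 2 * M ^ 2 * (Real.pi * s ^ 2) := by
        rw [integral_indicator measurableSet_closedBall, setIntegral_const, smul_eq_mul, measureReal_def, hv]
        ring
    _ ≤ 8 * (M * s) ^ 2 := by
        have hpi := Real.pi_le_four
        have h5 : 0 ≤ M ^ 2 * s ^ 2 := by positivity
        nlinarith

theorem VLE_proof (hVPB : VPB_stmt) (hVLP : VLP_stmt) (hVUB : VUB_stmt) : VLE_stmt := by
  obtain ⟨Cp, hCp, hP⟩ := hVPB
  refine ⟨7 * Cp, by linarith, ?_⟩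
  intro ch e ζ ζ1 B hch hRg
  obtain ⟨he, hζ, hζζ, hCe, hCζ⟩ := hRg
  have hζ1 : 0 < ζ1 := lt_of_lt_of_le hζ hζζ
  have hRg' : Rg Cp e ζ ζ1 := by
    refine ⟨he, hζ, hζζ, ?_, ?_⟩
    · have : 0 ≤ Cp * e := by positivity
      nlinarith
    · have : 0 ≤ Cp * ζ1 := by positivity
      nlinarith
  obtain ⟨R1, hR1, hP1⟩ := hP ch 2 e ζ ζ1 hch hRg'
  set η : ℝ := Cp * ζ1 with hη
  have hη0 : 0 < η := by positivity
  have hη1 : η ≤ 1 / 7 := by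
    have : 7 * Cp * ζ1 ≤ 1 := hCζ
    rw [hη]; linarith
  refine ⟨max R1 ((288 : ℝ) ^ (1 / η)), le_trans hR1 (le_max_left _ _), ?_⟩
  intro R δ t Γ D p hR hD hδ hp ht
  have hRR1 : R1 ≤ R := (le_max_left _ _).trans hR
  have hRR2 : (288 : ℝ) ^ (1 / η) ≤ R := (le_max_right _ _).trans hR
  have hR1' : 1 ≤ R := hR1.trans hRR1
  have hR0 : 0 < R := by linarith
  have hRη : (288 : ℝ) ≤ R ^ η := by
    have h1 : ((288 : ℝ) ^ (1 / η)) ^ η = 288 := by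
      rw [← Real.rpow_mul (by norm_num), one_div, inv_mul_cancel₀ hη0.ne', Real.rpow_one]
    calc (288 : ℝ) = ((288 : ℝ) ^ (1 / η)) ^ η := h1.symm
      _ ≤ R ^ η := Real.rpow_le_rpow (by positivity) hRR2 hη0.le
  obtain ⟨-, A, hA, hAs, hAk, hAf⟩ := hP1 R δ Γ B D p t hRR1 hD hδ hp ht
  obtain ⟨-, -, hrho, -, -, hlip, -⟩ := hVUB Γ δ B D.U hD.pot hδ
  set g := D.fl p.2 t p.1 with hg
  obtain ⟨hρ1, hρ2, hρ3, -, -⟩ := hrho p.2 g hp
  set ρ := rho D.U p.2 g with hρ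
  set s : ℝ := R ^ (-(1 / 2) + η) with hs
  set m : ℝ := R ^ (3 / 2 + η) with hm
  set N : ℝ := R ^ (1 / 2 + η) with hN
  have hs0 : 0 < s := by positivity
  have hs1 : s ≤ 1 := by
    rw [hs]
    exact Real.rpow_le_one_of_one_le_of_nonpos hR1' (by linarith)
  have hm0 : 0 < m := by positivity
  have hN0 : 0 < N := by positivity
  have hcd := VCD_proof
  have hcdi0 : cdi 0 = I := by
    have h1 := (hcd.1 I).2
    rw [hcd.2.2.1] at h1
    exact h1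
  have hfc : (pv D ch ζ ζ1 R t p) = fun v => VLE_e (R * ρ) v * A v := by
    funext v
    exact hAf v
  have hfs : ContDiff ℝ 2 (fun v => VLE_e (R * ρ) v * A v) :=
    ((VLE_ec (R * ρ)).mul hA).of_le (show ((2 : ℕ∞) : WithTop ℕ∞) ≤ ((⊤ : ℕ∞) : WithTop ℕ∞) from WithTop.coe_le_coe.2 le_top)
  have hpsi : psi D ch ζ ζ1 R t p = fun z => (fun v => VLE_e (R * ρ) v * A v) (cd (g⁻¹ • z)) := by
    funext z
    show pv D ch ζ ζ1 R t p (cd (g⁻¹ • z)) = _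
    rw [hfc]
  have hlap := (hVLP.2 (fun v => VLE_e (R * ρ) v * A v) g hfs).2
  have hG : ∀ z : ℍ, QU.lap (psi D ch ζ ζ1 R t p) z - ((R ^ 2 * (D.U z + 2 * p.2) : ℝ) : ℂ) * psi D ch ζ ζ1 R t p z =
      -(((1 - ‖cd (g⁻¹ • z)‖ ^ 2 / 4) ^ 2 : ℝ) : ℂ) * (VLE_e (R * ρ) (cd (g⁻¹ • z)) * (-(((R * ρ) ^ 2 : ℝ) : ℂ) * A (cd (g⁻¹ • z)) +
        2 * (((R * ρ : ℝ) : ℂ) * Complex.I) * fderiv ℝ A (cd (g⁻¹ • z)) 1 +
        (fderiv ℝ (fderiv ℝ A) (cd (g⁻¹ • z)) 1 1 + fderiv ℝ (fderiv ℝ A) (cd (g⁻¹ • z)) Complex.I Complex.I))) -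
      ((R ^ 2 * (D.U z + 2 * p.2) : ℝ) : ℂ) * (VLE_e (R * ρ) (cd (g⁻¹ • z)) * A (cd (g⁻¹ • z))) := by
    intro z
    rw [hpsi, hlap z, VLE_lp hA]
  have hz0 : ∀ z : ℍ, s < ‖cd (g⁻¹ • z)‖ →
      QU.lap (psi D ch ζ ζ1 R t p) z - ((R ^ 2 * (D.U z + 2 * p.2) : ℝ) : ℂ) * psi D ch ζ ζ1 R t p z = 0 := by
    intro z hz
    obtain ⟨a1, a2, a3⟩ := VLE_zero hAs hz
    rw [hG z, a1, a2, a3]
    simp
  have hbd : ∀ z : ℍ, ‖QU.lap (psi D ch ζ ζ1 R t p) z - ((R ^ 2 * (D.U z + 2 * p.2) : ℝ) : ℂ) * psi D ch ζ ζ1 R t p z‖ ≤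
      6 * R ^ (3 + 2 * η) := by
    intro z
    by_cases hz : s < ‖cd (g⁻¹ • z)‖
    · rw [hz0 z hz, norm_zero]
      positivity
    rw [not_lt] at hz
    rw [hG z]
    set v := cd (g⁻¹ • z) with hv
    have hv1 : ‖v‖ ≤ 1 := hz.trans hs1
    have hv0 : 0 ≤ ‖v‖ := norm_nonneg v
    have hUz : Ug D.U g v = D.U z := by
      unfold Ug
      rw [hv, (hcd.1 (g⁻¹ • z)).2, smul_inv_smul]
    have hU0 : Ug D.U g 0 = D.U (g • I) := by
      unfold Ug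
      rw [hcdi0]
    have hl := (hlip g v hv1).2
    rw [hUz, hU0] at hl
    have hbr := VLE_br (E := p.2) hρ3 hρ1 hρ2 hv0 hv1 hδ hl
    have hb : |(1 - ‖v‖ ^ 2 / 4) ^ 2 * (R * ρ) ^ 2 - R ^ 2 * (D.U z + 2 * p.2)| ≤ R ^ 2 * ‖v‖ := by
      have h1 : (1 - ‖v‖ ^ 2 / 4) ^ 2 * (R * ρ) ^ 2 - R ^ 2 * (D.U z + 2 * p.2) =
          R ^ 2 * ((1 - ‖v‖ ^ 2 / 4) ^ 2 * ρ ^ 2 - (D.U z + 2 * p.2)) := by ring
      rw [h1, abs_mul, abs_of_nonneg (sq_nonneg R)]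
      exact mul_le_mul_of_nonneg_left hbr (sq_nonneg R)
    have hk0 : ‖A v‖ ≤ m := by
      have := hAk 0 (by norm_num) v
      rwa [norm_iteratedFDeriv_zero, pow_zero, mul_one] at this
    have hk1 : ‖fderiv ℝ A v 1‖ ≤ m * N := by
      have := hAk 1 (by norm_num) v
      rw [pow_one] at this
      exact VLE_n1 this
    have hk2 := VLE_n2 (hAk 2 le_rfl v) 1 (by simp)
    have hk2' := VLE_n2 (hAk 2 le_rfl v) Complex.I (by simp)
    have hq0 : 0 ≤ (1 - ‖v‖ ^ 2 / 4) ^ 2 := sq_nonneg _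
    have hq1 : (1 - ‖v‖ ^ 2 / 4) ^ 2 ≤ 1 := by
      have : ‖v‖ ^ 2 ≤ 1 := by nlinarith
      have h' : 0 ≤ ‖v‖ ^ 2 := sq_nonneg _
      nlinarith
    refine (VLE_pt hq0 hq1 (by positivity) hk0 hk1 hk2 hk2' hb).trans ?_
    have f1 : R ^ 2 * ‖v‖ * m ≤ R ^ (3 + 2 * η) := by
      calc R ^ 2 * ‖v‖ * m ≤ R ^ 2 * s * m := by gcongr
        _ = R ^ (3 + 2 * η) := by
          rw [hs, hm, ← Real.rpow_natCast R 2, ← Real.rpow_add hR0, ← Real.rpow_add hR0]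
          congr 1
          push_cast
          ring
    have f2 : 2 * (R * ρ) * (m * N) ≤ 12 / 5 * R ^ (3 + 2 * η) := by
      have h1 : R * (m * N) = R ^ (3 + 2 * η) := by
        rw [hm, hN]
        nth_rewrite 1 [← Real.rpow_one R]
        rw [← Real.rpow_add hR0, ← Real.rpow_add hR0]
        congr 1
        ring
      have h2 : 0 < R * (m * N) := by positivity
      rw [← h1]
      nlinarith
    have f3 : 2 * (m * N ^ 2) ≤ 2 * R ^ (3 + 2 * η) := by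
      have h1 : m * N ^ 2 = R ^ (5 / 2 + 3 * η) := by
        rw [hm, hN, ← Real.rpow_natCast (R ^ (1 / 2 + η)) 2, ← Real.rpow_mul hR0.le, ← Real.rpow_add hR0]
        congr 1
        push_cast
        ring
      rw [h1]
      have : R ^ (5 / 2 + 3 * η) ≤ R ^ (3 + 2 * η) := Real.rpow_le_rpow_of_exponent_le hR1' (by linarith)
      linarith
    have f0 : 0 < R ^ (3 + 2 * η) := by positivity
    linarith
  refine (VLE_int g _ s (6 * R ^ (3 + 2 * η)) hs0.le hs1 hbd hz0).trans ?_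
  have g1 : 8 * (6 * R ^ (3 + 2 * η) * s) ^ 2 = 288 * R ^ (5 + 6 * η) := by
    have : R ^ (3 + 2 * η) * s = R ^ (5 / 2 + 3 * η) := by
      rw [hs, ← Real.rpow_add hR0]
      congr 1
      ring
    rw [mul_assoc 6, this, mul_pow, ← Real.rpow_natCast (R ^ (5 / 2 + 3 * η)) 2, ← Real.rpow_mul hR0.le]
    have : (5 / 2 + 3 * η) * ((2 : ℕ) : ℝ) = 5 + 6 * η := by push_cast; ring
    rw [this]
    ring
  rw [g1]
  calc 288 * R ^ (5 + 6 * η) ≤ R ^ η * R ^ (5 + 6 * η) := by gcongr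
    _ = R ^ (5 + 7 * Cp * ζ1) := by
      rw [← Real.rpow_add hR0]
      congr 1
      rw [hη]
      ring

end

end Pool.Agent.VQ
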