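import Pool.Agent.helper74.VQ.SpecE
import Pool.Agent.helper72.QU.DOM

/-!
# vq:VI4 (MP_07c750_an): interface I4, the big step kernel
-/

set_option autoImplicit false

open scoped MatrixGroups ContDiff Topology UpperHalfPlane ComplexConjugate ENNReal
open UpperHalfPlane MeasureTheory Filter Set

namespace Pool.Agent.VQ

open Pool.Agent.RS

noncomputable section

theorem VI4_adm {C C' : ℝ} {A : Prm} (hC : 1 ≤ C) (h : C ≤ C') (hA : Adm C' A) : Adm C A := by
  have he3 := hA.e3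
  have hC' : 0 < C' := by linarith
  have hz : 0 < A.z := lt_of_lt_of_le (mul_pos hC' he3) hA.z
  have hz1 : 0 < A.z1 := lt_of_lt_of_le (mul_pos hC' hz) hA.z1
  have hz2 : 0 < A.z2 := lt_of_lt_of_le (mul_pos hC' hz1) hA.z2
  refine ⟨hA.e3, hA.m, ?_, ?_, ?_, ?_, hA.tu⟩
  · exact (mul_le_mul_of_nonneg_right h he3.le).trans hA.z
  · exact (mul_le_mul_of_nonneg_right h hz.le).trans hA.z1
  · exact (mul_le_mul_of_nonneg_right h hz1.le).trans hA.z2
  · exact (mul_le_mul_of_nonneg_right h (mul_nonneg (Nat.cast_nonneg _) hz2.le)).trans hA.up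

theorem VI4_mW (R : ℝ) : mW R ≤ mP := by
  have : SigmaFinite mG := RS.A_GMG.2.2.1
  have h : mW R = mP.restrict (univ ×ˢ Wi 2 R) := by
    unfold mW mP
    rw [← Measure.prod_restrict, Measure.restrict_univ]
  rw [h]
  exact Measure.restrict_le_self

theorem VI4_proof (hVUM : VUM_stmt) (hVMA : VMA_stmt) : VI4_stmt := by
  intro Γ ch hΓ hch
  obtain ⟨C1, hC1, hU⟩ := hVUM
  obtain ⟨C2, hC2, hM⟩ := hVMA
  refine ⟨1 / 10, max C1 C2, by norm_num, le_trans hC1 (le_max_left _ _), ?_⟩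
  intro B A hA
  obtain ⟨R1, hR1, hU'⟩ := hU ch B A hch (VI4_adm hC1 (le_max_left _ _) hA)
  obtain ⟨R2, hR2, hM'⟩ := hM ch B A hch (VI4_adm hC2 (le_max_right _ _) hA)
  obtain ⟨F, hF⟩ := QU.DOM Γ hΓ
  refine ⟨1 / 7, max R1 R2, by norm_num, le_trans hR1 (le_max_left _ _), ?_⟩
  intro R D hR hD
  have hDm : Dm Γ F := Or.inl ⟨hΓ, hF⟩
  obtain ⟨-, h2, h3, -, -, -, -⟩ := hU' R (1 / 10) Γ F D (le_trans (le_max_left _ _) hR) hDm hD le_rfl
  have h4 := hM' R (1 / 10) Γ D (le_trans (le_max_right _ _) hR) hD le_rfl A.m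
  refine ⟨h2 A.m, fun p q => (h4 p hA.m le_rfl).2 q, fun p q hpq => ?_, fun p q hpq => (h3 A.m p q hpq).1,
    fun p => ?_⟩
  · have h5 := (h3 A.m p q hpq).2
    unfold Prm.tu
    linarith
  · exact (lintegral_mono' (VI4_mW R) le_rfl).trans (h4 p hA.m le_rfl).1

end

end Pool.Agent.VQ
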